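import Pool.Agent.Lib.MP_acafa7_al.MS.Iface3

/-! Module Om: existence of the set `Ω`. -/

namespace MSG.H62

open Classical

section lists

variable {V : Type} {G : SimpleGraph V}

theorem wNeNil {x y : V} {l : List V} (h : IsW G x y l) : l ≠ [] := by
  intro h0
  have := h.first
  simp [h0] at this

theorem wLast {x y : V} {l : List V} (h : IsW G x y l) : y ∈ l :=
  List.mem_of_getLast? h.last

theorem wCons {x y : V} {l : List V} (h : IsW G x y l) : ∃ m, l = x :: m := by
  cases l with
  | nil => exact absurd rfl (wNeNil h)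
  | cons a m =>
    refine ⟨m, ?_⟩
    have := h.first
    simp only [List.head?_cons, Option.some.injEq] at this
    rw [this]

theorem wRev {x y : V} {l : List V} (h : IsW G x y l) : IsW G y x l.reverse where
  chain := by
    rw [List.isChain_reverse]
    exact h.chain.imp fun a b hab => hab.symm
  first := by
    rw [List.head?_reverse]
    exact h.last
  last := by
    rw [List.getLast?_reverse]
    exact h.first

theorem wApp {x y z : V} {l m : List V} (h : IsW G x y l) (h' : IsW G y z m) :
    IsW G x z (l ++ m.tail) := by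
  obtain ⟨m', rfl⟩ := wCons h'
  refine ⟨?_, ?_, ?_⟩
  · rw [List.isChain_append]
    refine ⟨h.chain, h'.chain.tail, ?_⟩
    intro a ha b hb
    have e : a = y := by
      have := h.last
      rw [Option.mem_def] at ha
      rw [ha] at this
      exact Option.some.inj this
    subst e
    cases m' with
    | nil => simp at hb
    | cons c m'' =>
      simp only [List.tail_cons, List.head?_cons, Option.mem_def, Option.some.injEq] at hb
      subst hb
      have := h'.chain
      rw [List.isChain_cons_cons] at this
      exact this.1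
  · obtain ⟨l', rfl⟩ := wCons h
    simp
  · cases m' with
    | nil =>
      have e : y = z := by
        have := h'.last
        simpa using this
      simp only [List.tail_cons, List.append_nil]
      rw [← e]
      exact h.last
    | cons c m'' =>
      have := h'.last
      rw [List.getLast?_cons_cons] at this
      simp only [List.tail_cons]
      rw [List.getLast?_append_of_ne_nil _ (by simp)]
      exact this

theorem wMap {x y : V} {l : List V} (h : IsW G x y l) (f : V → V)
    (hf : ∀ a b, G.Adj a b → G.Adj (f a) (f b)) : IsW G (f x) (f y) (l.map f) where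
  chain := by
    rw [List.isChain_map]
    exact h.chain.imp fun a b hab => hf a b hab
  first := by
    rw [List.head?_map, h.first]
    rfl
  last := by
    rw [List.getLast?_map, h.last]
    rfl

theorem wPre {x y : V} {l : List V} (h : IsW G x y l) {z : V} (hz : z ∈ l) :
    ∃ l', IsW G x z l' ∧ ∀ w ∈ l', w ∈ l := by
  obtain ⟨s, t, rfl⟩ := List.append_of_mem hz
  refine ⟨s ++ [z], ⟨?_, ?_, by simp⟩, ?_⟩
  · have := h.chain
    rw [show s ++ z :: t = (s ++ [z]) ++ t by simp] at this
    exact this.left_of_append
  · have := h.first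
    cases s with
    | nil => simpa using this
    | cons a s' => simpa using this
  · intro w hw
    simp only [List.mem_append, List.mem_cons] at hw ⊢
    tauto

end lists

section dist

variable {V : Type} {G : SimpleGraph V}

theorem ball_fin (hc : G.Connected) (hl : ∀ x, {y | G.Adj x y}.Finite) (y : V) :
    ∀ n : ℕ, {z | G.dist y z ≤ n}.Finite := by
  intro n
  induction n with
  | zero =>
    refine (Set.finite_singleton y).subset ?_
    intro z hz
    have : G.dist y z = 0 := Nat.le_zero.1 hz
    have e := (hc.dist_eq_zero_iff).1 this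
    exact e.symm
  | succ n ih =>
    refine (ih.union (ih.biUnion fun w _ => hl w)).subset ?_
    intro z hz
    by_cases h : G.dist y z ≤ n
    · exact Or.inl h
    · right
      obtain ⟨p, hp⟩ := hc.exists_walk_length_eq_dist z y
      rw [SimpleGraph.dist_comm] at hp
      have hz' : G.dist y z ≤ n + 1 := hz
      cases p with
      | nil =>
        exfalso
        simp only [SimpleGraph.Walk.length_nil] at hp
        omega
      | cons hadj p' =>
        rename_i w
        rw [SimpleGraph.Walk.length_cons] at hp
        simp only [Set.mem_iUnion, Set.mem_ofPred_eq]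
        refine ⟨w, ?_, hadj.symm⟩
        have : G.dist y w ≤ p'.reverse.length := SimpleGraph.dist_le _
        rw [SimpleGraph.Walk.length_reverse] at this
        omega

theorem dist_le_of_map (hc : G.Connected) (f : V → V) (hf : ∀ a b, G.Adj a b → G.Adj (f a) (f b))
    (x y : V) : G.dist (f x) (f y) ≤ G.dist x y := by
  obtain ⟨p, hp⟩ := hc.exists_walk_length_eq_dist x y
  have := SimpleGraph.dist_le (p.map (⟨f, fun {a b} h => hf a b h⟩ : G →g G))
  rw [SimpleGraph.Walk.length_map, hp] at this
  exact this

theorem dist_smul {Γ : Type} [Group Γ] [MulAction Γ V] (hc : G.Connected)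
    (hadj : ∀ (g : Γ) x y, G.Adj (g • x) (g • y) ↔ G.Adj x y) (g : Γ) (x y : V) :
    G.dist (g • x) (g • y) = G.dist x y := by
  apply le_antisymm
  · exact dist_le_of_map hc (fun z => g • z) (fun a b h => (hadj g a b).2 h) x y
  · have := dist_le_of_map hc (fun z => g⁻¹ • z) (fun a b h => (hadj g⁻¹ a b).2 h)
      (g • x) (g • y)
    simpa using this

end dist

theorem om (h1 : ConnStatement) (h2 : ProperStatement) : OmStatement := by
  intro V X Γ _ _ hMS hG g hg
  obtain ⟨x₀⟩ := hMS.conn.nonempty
  obtain ⟨K', hK'⟩ := h1 V X Γ hMS hG g hg (X.G.dist x₀ (g • x₀))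
  have hd : ∀ (c : Γ) (x y : V), X.G.dist (c • x) (c • y) = X.G.dist x y :=
    fun c x y => dist_smul hMS.conn hG.adj c x y
  have hmap : ∀ (c : Γ) (a b : V), X.G.Adj a b → X.G.Adj (c • a) (c • b) :=
    fun c a b h => (hG.adj c a b).2 h
  have hcomm : ∀ (c : Γ), c * g = g * c → ∀ z : V,
      X.G.dist (c • z) (g • c • z) = X.G.dist z (g • z) := by
    intro c hc z
    rw [← mul_smul, ← hc, mul_smul]
    exact hd c z (g • z)
  have hsmall : ∀ x, CY X (MulAction.toPerm g) K' x₀ x → X.G.dist x (g • x) ≤ K' := by
    rintro x ⟨l, hl, hz⟩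
    exact hz x (wLast hl)
  refine ⟨K', {x | CY X (MulAction.toPerm g) K' x₀ x}, ⟨⟨x₀, hK' x₀ x₀ le_rfl le_rfl⟩, ?_, ?_,
    ?_, ?_⟩⟩
  · intro x hx
    exact hsmall x hx
  · rintro x ⟨l, hl, hz⟩ y ⟨m, hm, hz'⟩
    refine ⟨l.reverse ++ m.tail, wApp (wRev hl) hm, ?_⟩
    intro z hzm
    rw [List.mem_append, List.mem_reverse] at hzm
    rcases hzm with h | h
    · obtain ⟨l', hl', hsub⟩ := wPre hl h
      exact ⟨l', hl', fun w hw => hz w (hsub w hw)⟩
    · obtain ⟨l', hl', hsub⟩ := wPre hm (List.mem_of_mem_tail h)
      exact ⟨l', hl', fun w hw => hz' w (hsub w hw)⟩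
  · rintro c hc x ⟨l, hl, hz⟩
    obtain ⟨m, hm, hz'⟩ := hK' x₀ (c • x₀) le_rfl (hcomm c hc x₀).le
    refine ⟨m ++ (l.map (fun z => c • z)).tail, wApp hm (wMap hl (fun z => c • z) (hmap c)), ?_⟩
    intro z hzm
    rw [List.mem_append] at hzm
    rcases hzm with h | h
    · exact hz' z h
    · obtain ⟨w, hw, rfl⟩ := List.mem_map.1 (List.mem_of_mem_tail h)
      have := hz w hw
      show X.G.dist (c • w) (g • c • w) ≤ K'
      rw [hcomm c hc w]
      exact this
  · obtain ⟨s, hs⟩ := hG.cocompact
    set B : Set V := ⋃ y ∈ (s : Set V), {z | X.G.dist y z ≤ K'} with hB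
    have hBf : B.Finite := s.finite_toSet.biUnion fun y _ => ball_fin hMS.conn hG.locfin y K'
    have hΓf := (h2 V X Γ hG).1 (s : Set V) B s.finite_toSet hBf
    set G0 : Set Γ := {γ : Γ | ∃ x ∈ (s : Set V), ∃ y ∈ B, Nr X.G (γ • x) y} with hG0
    -- choice of representatives
    let good : V × Γ → Γ → Prop := fun p h => h⁻¹ * g * h = p.2 ∧
      CY X (MulAction.toPerm g) K' x₀ (h • p.1)
    let rep : V × Γ → V := fun p => if h : ∃ h, good p h then (Classical.choose h) • p.1 else x₀
    have hfin : (rep '' ((s : Set V) ×ˢ G0)).Finite := (s.finite_toSet.prod hΓf).image rep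
    have hx₀ : CY X (MulAction.toPerm g) K' x₀ x₀ := hK' x₀ x₀ le_rfl le_rfl
    refine ⟨hfin.toFinset, ?_, ?_⟩
    · intro x hx
      rw [Set.Finite.mem_toFinset] at hx
      obtain ⟨p, _, rfl⟩ := hx
      show CY X (MulAction.toPerm g) K' x₀ (rep p)
      by_cases h : ∃ h, good p h
      · have e : rep p = (Classical.choose h) • p.1 := dif_pos h
        rw [e]
        exact (Classical.choose_spec h).2
      · have e : rep p = x₀ := dif_neg h
        rw [e]
        exact hx₀
    · intro x hx
      obtain ⟨h, y, hy, rfl⟩ := hs x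
      have hxs := hsmall _ hx
      have hγ : (h⁻¹ * g * h) ∈ G0 := by
        refine ⟨y, hy, (h⁻¹ * g * h) • y, ?_, Or.inl rfl⟩
        rw [hB]
        simp only [Set.mem_iUnion]
        refine ⟨y, hy, ?_⟩
        show X.G.dist y ((h⁻¹ * g * h) • y) ≤ K'
        have := hd h y ((h⁻¹ * g * h) • y)
        rw [← this, ← mul_smul]
        have e : h * (h⁻¹ * g * h) = g * h := by group
        rw [e, mul_smul]
        exact hxs
      have hg' : ∃ h', good (y, h⁻¹ * g * h) h' := ⟨h, rfl, hx⟩
      set h' := Classical.choose hg' with hh'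
      have hspec := Classical.choose_spec hg'
      rw [← hh'] at hspec
      have e : rep (y, h⁻¹ * g * h) = h' • y := dif_pos hg'
      refine ⟨h * h'⁻¹, ?_, rep (y, h⁻¹ * g * h), ?_, ?_⟩
      · have h3 : h'⁻¹ * g * h' = h⁻¹ * g * h := hspec.1
        have h4 : h'⁻¹ * g = h⁻¹ * g * h * h'⁻¹ := by
          rw [← h3]
          group
        rw [mul_assoc, h4]
        group
      · rw [Set.Finite.mem_toFinset]
        exact ⟨_, ⟨hy, hγ⟩, rfl⟩
      · rw [e, ← mul_smul]
        congr 1
        group

end MSG.H62
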